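import Pool.Agent.Helper52_OD.Stmts

/-!
# MP_ee7213_pr, RowRigidity: the main argument
-/

set_option autoImplicit false

open MeasureTheory ProbabilityTheory Set

noncomputable section

namespace Pool.Agent.OD.H52

open Pool.Agent.OD

section law

variable {d q : ℕ} {μ : Measure ((Fin d → ℤ) → Fin q)}

/-- the cylinder probabilities of a law -/
def fo (μ : Measure ((Fin d → ℤ) → Fin q)) (L : Finset (Fin d → ℤ)) (x : (Fin d → ℤ) → Fin q) :
    ℝ := μ.real {ω | ∀ v ∈ L, ω v = x v}

theorem cyl_meas (L : Finset (Fin d → ℤ)) (x : (Fin d → ℤ) → Fin q) :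
    MeasurableSet[sA q d {u | u ∈ L}] {ω | ∀ v ∈ L, ω v = x v} := by
  have e : {ω : (Fin d → ℤ) → Fin q | ∀ v ∈ L, ω v = x v} =
      ⋂ u ∈ L, {y | y u ∈ ({x u} : Set (Fin q))} := by
    ext y
    simp only [mem_iInter]
    rfl
  rw [e]
  refine MeasurableSet.biInter L.countable_toSet fun u hu => ?_
  exact sA_coord (A := {u | u ∈ L}) hu _

theorem cyl_full (L : Finset (Fin d → ℤ)) (x : (Fin d → ℤ) → Fin q) :
    MeasurableSet {ω : (Fin d → ℤ) → Fin q | ∀ v ∈ L, ω v = x v} := sA_le _ _ (cyl_meas L x)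

theorem fo_isFam (hμ : IsOneDep d q μ) : IsFam d q (fo μ) := by
  classical
  have := hμ.prob
  refine ⟨?_, ?_, ?_, ?_, ?_, ?_, ?_⟩
  · intro L x
    exact measureReal_nonneg
  · intro x
    have e : {ω : (Fin d → ℤ) → Fin q | ∀ v ∈ (∅ : Finset (Fin d → ℤ)), ω v = x v} = univ := by
      ext y
      exact ⟨fun _ => trivial, fun _ u hu => absurd hu (Finset.notMem_empty u)⟩
    rw [fo, e]
    simp
  · intro L x y h
    rw [fo, fo]
    congr 1
    ext z
    constructor
    · intro hz u hu
      rw [← h u hu]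
      exact hz u hu
    · intro hz u hu
      rw [h u hu]
      exact hz u hu
  · intro L x v hv
    have h1 : ∀ b, fo μ (insert v L) (Function.update x v b) =
        (μ.restrict {ω | ∀ v ∈ L, ω v = x v}).real ((fun y => y v) ⁻¹' {b}) := by
      intro b
      rw [fo, measureReal_restrict_apply ((measurable_pi_apply _) (MeasurableSet.singleton _))]
      congr 1
      ext y
      constructor
      · intro hy
        refine ⟨?_, fun u hu => ?_⟩
        · have h2 := hy v (Finset.mem_insert_self v L)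
          rw [Function.update_self] at h2
          exact h2
        · have h2 := hy u (Finset.mem_insert_of_mem hu)
          rw [Function.update_of_ne (fun h : u = v => hv (h ▸ hu))] at h2
          exact h2
      · rintro ⟨h2, h3⟩ u hu
        rcases Finset.mem_insert.1 hu with rfl | hu
        · rw [Function.update_self]
          exact h2
        · rw [Function.update_of_ne (fun h : u = v => hv (h ▸ hu))]
          exact h3 u hu
    have h3 := sum_measureReal_preimage_singleton
      (μ := μ.restrict {ω : (Fin d → ℤ) → Fin q | ∀ v ∈ L, ω v = x v})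
      (Finset.univ : Finset (Fin q)) (f := fun y : (Fin d → ℤ) → Fin q => y v)
      (fun c _ => (measurable_pi_apply v) (MeasurableSet.singleton c))
    rw [Finset.sum_congr rfl fun b _ => h1 b, h3, fo, measureReal_restrict_apply]
    · congr 1
      ext y
      simp
    · exact (measurable_pi_apply v) (MeasurableSet.of_discrete)
  · intro L x u v hu hv huv hx
    rw [fo, measureReal_def]
    have h2 : μ {ω | ∀ v ∈ L, ω v = x v} = 0 := by
      rw [measure_eq_zero_iff_ae_notMem]
      filter_upwards [hμ.proper] with y hy hyE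
      refine hy u v huv ?_
      rw [hyE u hu, hyE v hv, hx]
    rw [h2]
    rfl
  · intro L x a
    have hm : Measurable (fun (x : (Fin d → ℤ) → Fin q) w => x (w + a)) :=
      measurable_pi_lambda _ fun w => measurable_pi_apply (w + a)
    have h1 : fo μ L (fun v => x (v + a)) =
        (μ.map (fun x v => x (v + a))).real {ω | ∀ v ∈ L, ω v = x (v + a)} := by
      rw [hμ.stat a]
      rfl
    rw [h1, fo, measureReal_def, measureReal_def, Measure.map_apply hm (cyl_full L _)]
    congr 2
    ext y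
    constructor
    · intro hy u hu
      exact hy (u + a) (Finset.mem_image_of_mem _ hu)
    · intro hy u hu
      obtain ⟨w, hw, rfl⟩ := Finset.mem_image.1 hu
      exact hy w hw
  · intro A B x hAB
    rw [fo, fo, fo]
    have h2 : {ω : (Fin d → ℤ) → Fin q | ∀ v ∈ A ∪ B, ω v = x v} =
        {ω | ∀ v ∈ A, ω v = x v} ∩ {ω | ∀ v ∈ B, ω v = x v} := by
      ext y
      constructor
      · intro hy
        exact ⟨fun u hu => hy u (Finset.mem_union_left _ hu),
          fun u hu => hy u (Finset.mem_union_right _ hu)⟩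
      · rintro ⟨hy, hz⟩ u hu
        rcases Finset.mem_union.1 hu with h | h
        · exact hy u h
        · exact hz u h
    rw [h2]
    exact ind_ev hμ (A := {u | u ∈ A}) (B := {u | u ∈ B}) (fun u hu v hv => hAB u hu v hv)
      (cyl_meas A x) (cyl_meas B x)

end law

section

variable {d q : ℕ} {μ : Measure ((Fin (d + 1) → ℤ) → Fin q)}

theorem cn_single (k : ℤ) (w : Fin d → ℤ) (i : Fin d) :
    cn k (w + Pi.single i 1) = cn k w + Pi.single i.succ 1 := by
  funext j
  refine Fin.cases ?_ (fun j => ?_) j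
  · change k = k + (Pi.single i.succ 1 : Fin (d + 1) → ℤ) 0
    rw [Pi.single_eq_of_ne (Fin.succ_ne_zero i).symm, add_zero]
  · change w j + (Pi.single i 1 : Fin d → ℤ) j = w j + (Pi.single i.succ 1 : Fin (d + 1) → ℤ) j.succ
    congr 1
    by_cases h : j = i
    · subst h
      rw [Pi.single_eq_same, Pi.single_eq_same]
    · rw [Pi.single_eq_of_ne h, Pi.single_eq_of_ne (fun h' => h (Fin.succ_injective _ h'))]

theorem cn_zero_single (k : ℤ) (w : Fin d → ℤ) : cn (k + 1) w = cn k w + Pi.single 0 1 := by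
  funext j
  refine Fin.cases ?_ (fun j => ?_) j
  · change k + 1 = k + (Pi.single 0 1 : Fin (d + 1) → ℤ) 0
    rw [Pi.single_eq_same]
  · change w j = w j + (Pi.single 0 1 : Fin (d + 1) → ℤ) j.succ
    rw [Pi.single_eq_of_ne (Fin.succ_ne_zero j), add_zero]

theorem fibreX (hμ : IsOneDep (d + 1) q μ) (C : Finset (Fin q)) (hC : HC μ C)
    (hd : dn μ (C : Set (Fin q)) = 1 / 4) :
    ∃ (φ : Fin C.card → Fin q) (ν : Measure ((Fin d → ℤ) → Fin C.card)),
      IsOneDep d C.card ν ∧ ∀ (L : Finset (Fin d → ℤ)) (x : (Fin d → ℤ) → Fin C.card),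
        ν.real {ω | ∀ v ∈ L, ω v = x v} = pf φ μ L x := by
  have := hμ.prob
  set φ : Fin C.card → Fin q := fun i => (C.equivFin.symm i : Fin q) with hφ
  have h1 : Function.Injective φ := fun i j h => C.equivFin.symm.injective (Subtype.ext h)
  have h2 : Set.range φ = (C : Set (Fin q)) := by
    ext c
    constructor
    · rintro ⟨i, rfl⟩
      exact (C.equivFin.symm i).2
    · intro hc
      exact ⟨C.equivFin ⟨c, hc⟩, by rw [hφ]; simp⟩
  have h3 : 1 ≤ C.card := by
    rw [Nat.one_le_iff_ne_zero, Ne, Finset.card_eq_zero]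
    rintro rfl
    have e : {x : (Fin (d + 1) → ℤ) → Fin q | x 0 ∈ ((∅ : Finset (Fin q)) : Set (Fin q))} = ∅ := by
      ext x
      simp
    rw [dn, e, measureReal_empty] at hd
    norm_num at hd
  obtain ⟨ν, hν, hν'⟩ := H52X.measX (pf φ μ) h3 (pf_isFam φ hμ C hC hd h1 h2)
  exact ⟨φ, ν, hν, hν'⟩

/-- proper coordinates in the other directions pass to the fibre -/
theorem fibre_dir (hμ : IsOneDep (d + 1) q μ) {m : ℕ} (φ : Fin m → Fin q)
    (ν : Measure ((Fin d → ℤ) → Fin m)) (hν : IsOneDep d m ν)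
    (hνp : ∀ (L : Finset (Fin d → ℤ)) (x : (Fin d → ℤ) → Fin m),
      ν.real {ω | ∀ v ∈ L, ω v = x v} = pf φ μ L x) (i : Fin d) (r : Fin q → Fin 4)
    (hr : ∀ᵐ x ∂μ, ∀ u, r (x u) ≠ r (x (u + Pi.single i.succ 1))) :
    ∀ᵐ x ∂ν, ∀ u, r (φ (x u)) ≠ r (φ (x (u + Pi.single i 1))) := by
  have := hν.prob
  have := hμ.prob
  rw [ae_all_iff]
  intro u
  refine H52X.ae_pair u (u + Pi.single i 1) (fun a b => r (φ a) = r (φ b)) fun x hx => ?_
  rw [hνp, pf]
  have h1 : μ (ev φ {u, u + Pi.single i 1} x) = 0 := by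
    rw [measure_eq_zero_iff_ae_notMem]
    filter_upwards [hr] with y hy hyE
    have h2 := hy (cn 0 u)
    rw [← cn_single, hyE u (by simp), hyE (u + Pi.single i 1) (by simp)] at h2
    exact h2 hx
  rw [measureReal_def, h1]
  simp

theorem card_sum {k q : ℕ} (r : Fin q → Fin k) (m : ℕ)
    (h : ∀ c, m ≤ (Finset.univ.filter fun a => r a = c).card) : k * m ≤ q := by
  have h1 := Finset.card_eq_sum_card_fiberwise (f := r) (s := (Finset.univ : Finset (Fin q)))
    (t := (Finset.univ : Finset (Fin k))) (fun _ _ => by simp)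
  rw [Finset.card_univ, Fintype.card_fin] at h1
  rw [h1]
  calc k * m = ∑ _c : Fin k, m := by simp
    _ ≤ _ := Finset.sum_le_sum fun c _ => h c

/-- the classes of a 4-valued coordinate which is proper on the lines -/
theorem four' (hμ : IsOneDep (d + 1) q μ) (r : Fin q → Fin 4)
    (hr : ∀ᵐ x ∂μ, ∀ u, r (x u) ≠ r (x (u + Pi.single 0 1))) (c : Fin 4) :
    HC μ ((Finset.univ.filter fun a => r a = c : Finset (Fin q)) : Set (Fin q)) ∧
      dn μ ((Finset.univ.filter fun a => r a = c : Finset (Fin q)) : Set (Fin q)) = 1 / 4 := by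
  have hr' : ∀ᵐ x ∂μ, ∀ (k : ℤ) (w : Fin d → ℤ), r (x (cn k w)) ≠ r (x (cn (k + 1) w)) := by
    filter_upwards [hr] with x hx k w
    rw [cn_zero_single]
    exact hx _
  refine ⟨?_, ?_⟩
  · filter_upwards [hr'] with x hx k w h2 h3
    have h4 : r (x (cn k w)) = c := by simpa using h2
    have h5 : r (x (cn (k + 1) w)) = c := by simpa using h3
    exact hx k w (h4.trans h5.symm)
  · rw [← (four hμ r hr' c).1, dn]
    congr 1
    ext y
    simp

end

/-- with a proper 4-valued coordinate in every direction there are at least `4 ^ d` colours -/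
theorem all_low (d : ℕ) : ∀ (q : ℕ) (μ : Measure ((Fin d → ℤ) → Fin q)) (r : Fin d → Fin q → Fin 4),
    IsOneDep d q μ → (∀ i, ∀ᵐ x ∂μ, ∀ u, r i (x u) ≠ r i (x (u + Pi.single i 1))) →
    4 ^ d ≤ q := by
  induction d with
  | zero =>
    intro q μ r hμ _
    have := hμ.prob
    rw [pow_zero, Nat.one_le_iff_ne_zero]
    rintro rfl
    have h : (univ : Set ((Fin 0 → ℤ) → Fin 0)) = ∅ := by
      ext x
      exact (x 0).elim0
    have h2 := measure_univ (μ := μ)
    rw [h, measure_empty] at h2
    exact zero_ne_one h2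
  | succ d ih =>
    intro q μ r hμ hr
    rw [pow_succ, mul_comm]
    refine card_sum (r 0) _ fun c => ?_
    obtain ⟨hC, hd⟩ := four' hμ (r 0) (hr 0) c
    obtain ⟨φ, ν, hν, hνp⟩ := fibreX hμ _ hC hd
    exact ih _ ν (fun i a => r i.succ (φ a)) hν
      fun i => fibre_dir hμ φ ν hν hνp i (r i.succ) (hr i.succ)

/-- families with a proper 4-valued coordinate in every direction -/
theorem all_up (hP : ProdStmt) (hHL : HLStmt) (d : ℕ) : ∃ (q : ℕ)
    (p : Finset (Fin d → ℤ) → ((Fin d → ℤ) → Fin q) → ℝ) (r : Fin d → Fin q → Fin 4),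
    q = 4 ^ d ∧ IsFam d q p ∧ ∀ (i : Fin d) (L : Finset (Fin d → ℤ)) (x : (Fin d → ℤ) → Fin q)
      (u : Fin d → ℤ), u ∈ L → u + Pi.single i 1 ∈ L →
      r i (x u) = r i (x (u + Pi.single i 1)) → p L x = 0 := by
  classical
  induction d with
  | zero =>
    refine ⟨1, fun _ _ => 1, fun i => i.elim0, rfl, ⟨?_, ?_, ?_, ?_, ?_, ?_, ?_⟩, fun i => i.elim0⟩
    · intro _ _
      exact zero_le_one
    · intro _
      rfl
    · intro _ _ _ _
      rfl
    · intro _ _ _ _
      simp
    · intro _ _ u v _ _ h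
      unfold LAdj at h
      rw [Finset.univ_eq_empty, Finset.sum_empty] at h
      exact absurd h (by norm_num)
    · intro _ _ _
      rfl
    · intro _ _ _ _
      exact (one_mul _).symm
  | succ d ih =>
    obtain ⟨q, p, r, hq, hp, hr⟩ := ih
    obtain ⟨p1, hp1⟩ := hHL
    obtain ⟨P, hPf, r0, s, h1, h2⟩ := hP d q p1 p (by rw [hq]; exact Nat.one_le_pow _ _ (by norm_num))
      hp1 hp
    refine ⟨4 * q, P, fun i => Fin.cases r0 (fun j a => r j (s a)) i, ?_, hPf, ?_⟩
    · rw [hq, pow_succ, mul_comm]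
    · intro i L x u hu hv
      obtain ⟨k, w, rfl⟩ := exists_cn u
      revert hv
      refine Fin.cases ?_ (fun j => ?_) i
      · intro hv hx
        rw [← cn_zero_single] at hv hx
        exact h1 L x k w hu hv hx
      · intro hv hx
        rw [← cn_single] at hv hx
        exact h2 L x k w (w + Pi.single j 1) hu hv
          (hr j {w, w + Pi.single j 1} _ w (by simp) (by simp) hx)

end Pool.Agent.OD.H52
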