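import Pool.Agent.Helper52_OD.RigI
import Pool.Agent.Helper52_OD.Main

/-!
# MP_ee7213_pr: the fibres of a proper 4-colouring of the lines of direction `i`
-/

set_option autoImplicit false

open MeasureTheory ProbabilityTheory Set

noncomputable section

namespace Pool.Agent.OD.H52.I

open Pool.Agent.OD Pool.Agent.OD.H52

variable {d q : ℕ} (i : Fin (d + 1)) {μ : Measure ((Fin (d + 1) → ℤ) → Fin q)}

section

variable {m : ℕ} (φ : Fin m → Fin q)

/-- the event: the letters on `L` are those of `x` -/
def ev (i : Fin (d + 1)) (L : Finset (Fin d → ℤ)) (x : (Fin d → ℤ) → Fin m) :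
    Set ((Fin (d + 1) → ℤ) → Fin q) := {y | ∀ u ∈ L, y (ci i 0 u) = φ (x u)}

theorem ev_meas (L : Finset (Fin d → ℤ)) (x : (Fin d → ℤ) → Fin m) :
    MeasurableSet[sA q (d + 1) {u | ∃ a, a ∈ L ∧ u = ci i 0 a}] (ev φ i L x) := by
  have e : ev φ i L x = ⋂ u ∈ L, {y | y (ci i 0 u) ∈ ({φ (x u)} : Set (Fin q))} := by
    ext y
    simp only [ev, mem_iInter]
    rfl
  rw [e]
  refine MeasurableSet.biInter L.countable_toSet fun u hu => ?_
  exact sA_coord (A := {u | ∃ a, a ∈ L ∧ u = ci i 0 a}) ⟨u, hu, rfl⟩ _

theorem ev_full (L : Finset (Fin d → ℤ)) (x : (Fin d → ℤ) → Fin m) : MeasurableSet (ev φ i L x) :=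
  sA_le _ _ (ev_meas i φ L x)

/-- the family of the fibre -/
def pf (i : Fin (d + 1)) (μ : Measure ((Fin (d + 1) → ℤ) → Fin q)) (L : Finset (Fin d → ℤ))
    (x : (Fin d → ℤ) → Fin m) : ℝ := 4 ^ L.card * μ.real (ev φ i L x)

theorem pf_isFam (hμ : IsOneDep (d + 1) q μ) (C : Set (Fin q)) (hC : HC i μ C)
    (hd : dn μ C = 1 / 4) (hφ : Function.Injective φ) (hr : Set.range φ = C) :
    IsFam d m (pf φ i μ) := by
  classical
  have := hμ.prob
  refine ⟨?_, ?_, ?_, ?_, ?_, ?_, ?_⟩
  · intro L x
    exact mul_nonneg (by positivity) measureReal_nonneg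
  · intro x
    have e : ev φ i (∅ : Finset (Fin d → ℤ)) x = univ := by
      ext y
      exact ⟨fun _ => trivial, fun _ u hu => absurd hu (Finset.notMem_empty u)⟩
    rw [pf, e]
    simp
  · intro L x y h
    have e : ev φ i L x = ev φ i L y := by
      ext z
      constructor
      · intro hz u hu
        rw [← h u hu]
        exact hz u hu
      · intro hz u hu
        rw [h u hu]
        exact hz u hu
    rw [pf, pf, e]
  · intro L x v hv
    have h1 : ∀ b, pf φ i μ (insert v L) (Function.update x v b) =
        4 * 4 ^ L.card * (μ.restrict (ev φ i L x)).real ((fun y => y (ci i 0 v)) ⁻¹' {φ b}) := by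
      intro b
      rw [pf, Finset.card_insert_of_notMem hv, pow_succ, mul_comm (4 ^ L.card : ℝ) 4,
        measureReal_restrict_apply ((measurable_pi_apply _) (MeasurableSet.singleton _))]
      congr 2
      ext y
      constructor
      · intro hy
        refine ⟨?_, fun u hu => ?_⟩
        · have h2 := hy v (Finset.mem_insert_self v L)
          rw [Function.update_self] at h2
          exact h2
        · have h2 := hy u (Finset.mem_insert_of_mem hu)
          rw [Function.update_of_ne (fun h : u = v => hv (h ▸ hu))] at h2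
          exact h2
      · rintro ⟨h2, h3⟩ u hu
        rcases Finset.mem_insert.1 hu with rfl | hu
        · rw [Function.update_self]
          exact h2
        · rw [Function.update_of_ne (fun h : u = v => hv (h ▸ hu))]
          exact h3 u hu
    have h2 : ∑ b, (μ.restrict (ev φ i L x)).real ((fun y => y (ci i 0 v)) ⁻¹' {φ b}) =
        (μ.restrict (ev φ i L x)).real {y | y (ci i 0 v) ∈ C} := by
      have h3 := sum_measureReal_preimage_singleton (μ := μ.restrict (ev φ i L x))
        (Finset.univ.image φ) (f := fun y : (Fin (d + 1) → ℤ) → Fin q => y (ci i 0 v))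
        (fun c _ => (measurable_pi_apply _) (MeasurableSet.singleton c))
      rw [Finset.sum_image (fun a _ b _ h => hφ h)] at h3
      rw [h3]
      congr 1
      ext y
      rw [← hr]
      simp
    rw [Finset.sum_congr rfl fun b _ => h1 b, ← Finset.mul_sum, h2,
      measureReal_restrict_apply (coord_full _ C), Set.inter_comm,
      rigid i hμ C hC hd 0 v (ev φ i L x) ?_, pf]
    · ring
    · refine sA_mono ?_ _ (ev_meas i φ L x)
      rintro u ⟨a, ha, rfl⟩
      exact ⟨a, fun h => hv (h ▸ ha), rfl⟩
  · intro L x u v hu hv huv hx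
    have h1 : μ.real (ev φ i L x) = 0 := by
      rw [measureReal_def]
      have h2 : μ (ev φ i L x) = 0 := by
        rw [measure_eq_zero_iff_ae_notMem]
        filter_upwards [hμ.proper] with y hy hyE
        refine hy (ci i 0 u) (ci i 0 v) ?_ ?_
        · rw [adj_ci, sub_self, abs_zero, zero_add]
          exact huv
        · rw [hyE u hu, hyE v hv, hx]
      rw [h2]
      rfl
    rw [pf, h1, mul_zero]
  · intro L x a
    rw [pf, pf, Finset.card_image_of_injective _ (fun u v h => by simpa using h)]
    congr 1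
    rw [← stat_real hμ (ci i 0 a) (ev_full i φ L fun v => x (v + a))]
    congr 1
    ext y
    constructor
    · intro hy u hu
      change y (ci i 0 u + ci i 0 a) = _
      rw [ci_add, add_zero]
      exact hy (u + a) (Finset.mem_image_of_mem _ hu)
    · intro hy u hu
      obtain ⟨w, hw, rfl⟩ := Finset.mem_image.1 hu
      have h2 := hy w hw
      change y (ci i 0 w + ci i 0 a) = _ at h2
      rw [ci_add, add_zero] at h2
      exact h2
  · intro A B x hAB
    have h1 : Disjoint A B := Finset.disjoint_left.2 fun u hu hv => (hAB u hu u hv).1 rfl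
    have h2 : ev φ i (A ∪ B) x = ev φ i A x ∩ ev φ i B x := by
      ext y
      constructor
      · intro hy
        exact ⟨fun u hu => hy u (Finset.mem_union_left _ hu),
          fun u hu => hy u (Finset.mem_union_right _ hu)⟩
      · rintro ⟨hy, hz⟩ u hu
        rcases Finset.mem_union.1 hu with h | h
        · exact hy u h
        · exact hz u h
    rw [pf, pf, pf, Finset.card_union_of_disjoint h1, h2,
      ind_ev hμ (A := {u | ∃ a, a ∈ A ∧ u = ci i 0 a}) (B := {u | ∃ a, a ∈ B ∧ u = ci i 0 a}) ?_
        (ev_meas i φ A x) (ev_meas i φ B x), pow_add]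
    · ring
    · rintro u ⟨a, ha, rfl⟩ v ⟨b, hb, rfl⟩
      rw [adj_ci, Ne, ci_inj, sub_self, abs_zero, zero_add]
      exact ⟨fun h => (hAB a ha b hb).1 h.2, (hAB a ha b hb).2⟩

end

/-- the fibre carries a stationary 1-dependent colouring of the hyperplane -/
theorem fibre (hμ : IsOneDep (d + 1) q μ) (C : Finset (Fin q)) (hC : HC i μ C)
    (hd : dn μ (C : Set (Fin q)) = 1 / 4) : ∃ ν, IsOneDep d C.card ν := by
  have := hμ.prob
  set φ : Fin C.card → Fin q := fun i => (C.equivFin.symm i : Fin q) with hφ
  have h1 : Function.Injective φ := fun i j h => C.equivFin.symm.injective (Subtype.ext h)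
  have h2 : Set.range φ = (C : Set (Fin q)) := by
    ext c
    constructor
    · rintro ⟨i, rfl⟩
      exact (C.equivFin.symm i).2
    · intro hc
      exact ⟨C.equivFin ⟨c, hc⟩, by rw [hφ]; simp⟩
  have h3 : 1 ≤ C.card := by
    rw [Nat.one_le_iff_ne_zero, Ne, Finset.card_eq_zero]
    rintro rfl
    have e : {x : (Fin (d + 1) → ℤ) → Fin q | x 0 ∈ ((∅ : Finset (Fin q)) : Set (Fin q))} = ∅ := by
      ext x
      simp
    rw [dn, e, measureReal_empty] at hd
    norm_num at hd
  exact Pool.Agent.OD.H54.meas d C.card _ h3 (pf_isFam i φ hμ C hC hd h1 h2)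

/-- a colouring whose lines in the first direction are 4-coloured through `r` -/
theorem four (hμ : IsOneDep (d + 1) q μ) (r : Fin q → Fin 4)
    (hr : ∀ᵐ x ∂μ, ∀ (k : ℤ) (w : Fin d → ℤ), r (x (ci i k w)) ≠ r (x (ci i (k + 1) w))) (c : Fin 4) :
    μ.real {x | r (x 0) = c} = 1 / 4 ∧
      ∃ ν, IsOneDep d (Finset.univ.filter fun a => r a = c).card ν := by
  classical
  have := hμ.prob
  have h1 : ∀ c, HC i μ ((Finset.univ.filter fun a => r a = c : Finset (Fin q)) : Set (Fin q)) := by
    intro c
    filter_upwards [hr] with x hx k w h2 h3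
    have h4 : r (x (ci i k w)) = c := by simpa using h2
    have h5 : r (x (ci i (k + 1) w)) = c := by simpa using h3
    exact hx k w (h4.trans h5.symm)
  have h2 := fun c => dn_le i hμ _ (h1 c)
  have h3 : ∑ c, dn μ ((Finset.univ.filter fun a => r a = c : Finset (Fin q)) : Set (Fin q)) =
      1 := by
    have hm : Measurable (fun y : (Fin (d + 1) → ℤ) → Fin q => r (y 0)) :=
      (Measurable.of_discrete (f := r)).comp (measurable_pi_apply 0)
    have h4 := sum_measureReal_preimage_singleton (μ := μ) (Finset.univ : Finset (Fin 4))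
      (f := fun y : (Fin (d + 1) → ℤ) → Fin q => r (y 0))
      (fun c _ => hm (MeasurableSet.singleton c))
    have h5 : (fun y : (Fin (d + 1) → ℤ) → Fin q => r (y 0)) ⁻¹' ((Finset.univ : Finset (Fin 4)) :
        Set (Fin 4)) = univ := by
      ext y; simp
    rw [h5, probReal_univ] at h4
    rw [← h4]
    refine Finset.sum_congr rfl fun c _ => ?_
    rw [dn]
    congr 1
    ext y
    simp
  have h4 : ∀ c, dn μ ((Finset.univ.filter fun a => r a = c : Finset (Fin q)) : Set (Fin q)) =
      1 / 4 := by
    intro c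
    refine le_antisymm (h2 c) ?_
    rw [Fin.sum_univ_four] at h3
    have a0 := h2 0
    have a1 := h2 1
    have a2 := h2 2
    have a3 := h2 3
    fin_cases c
    · change _ ≤ dn μ ((Finset.univ.filter fun a => r a = (0 : Fin 4) : Finset (Fin q)) : Set (Fin q))
      linarith
    · change _ ≤ dn μ ((Finset.univ.filter fun a => r a = (1 : Fin 4) : Finset (Fin q)) : Set (Fin q))
      linarith
    · change _ ≤ dn μ ((Finset.univ.filter fun a => r a = (2 : Fin 4) : Finset (Fin q)) : Set (Fin q))
      linarith
    · change _ ≤ dn μ ((Finset.univ.filter fun a => r a = (3 : Fin 4) : Finset (Fin q)) : Set (Fin q))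
      linarith
  refine ⟨?_, fibre i hμ _ (h1 c) (h4 c)⟩
  rw [← h4 c, dn]
  congr 1
  ext y
  simp

end Pool.Agent.OD.H52.I
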