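import Pool.Agent.Helper52_OD.FibI

/-!
# MP_ee7213_pr, RowRigidity: permutations of the coordinates and the final statements
-/

set_option autoImplicit false

open MeasureTheory ProbabilityTheory Set

noncomputable section

namespace Pool.Agent.OD.H52.I

open Pool.Agent.OD Pool.Agent.OD.H52

section perm

variable {n q : ℕ} {μ : Measure ((Fin n → ℤ) → Fin q)} (σ : Equiv.Perm (Fin n))

/-- the permuted configuration -/
def pT (x : (Fin n → ℤ) → Fin q) : (Fin n → ℤ) → Fin q := fun v => x (v ∘ σ)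

theorem pT_meas : Measurable (pT (q := q) σ) :=
  measurable_pi_lambda _ fun v => measurable_pi_apply _

theorem adj_perm (u v : Fin n → ℤ) : LAdj (u ∘ σ) (v ∘ σ) ↔ LAdj u v := by
  unfold LAdj
  rw [← Equiv.sum_comp σ (fun i => |u i - v i|)]
  rfl

theorem pT_sA {A : Set (Fin n → ℤ)} {E : Set ((Fin n → ℤ) → Fin q)}
    (hE : MeasurableSet[sA q n A] E) :
    MeasurableSet[sA q n ((fun v : Fin n → ℤ => v ∘ σ) '' A)] (pT σ ⁻¹' E) := by
  obtain ⟨s, hs, rfl⟩ := hE
  refine ⟨{y | (fun v : A => y ⟨(v : Fin n → ℤ) ∘ σ, ⟨v, v.2, rfl⟩⟩) ∈ s}, ?_, rfl⟩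
  exact (measurable_pi_lambda _ fun v => measurable_pi_apply _) hs

theorem perm (hμ : IsOneDep n q μ) : IsOneDep n q (μ.map (pT σ)) := by
  have := hμ.prob
  have hT := pT_meas (q := q) σ
  refine ⟨Measure.isProbabilityMeasure_map hT.aemeasurable, ?_, ?_, ?_⟩
  · rw [ae_map_iff hT.aemeasurable]
    · filter_upwards [hμ.proper] with x hx u v huv
      exact hx _ _ ((adj_perm σ u v).2 huv)
    · have e : {x : (Fin n → ℤ) → Fin q | ∀ u v, LAdj u v → x u ≠ x v} =
          ⋂ u, ⋂ v, ⋂ (_ : LAdj u v), {x | x u = x v}ᶜ := by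
        ext x
        simp only [mem_iInter]
        rfl
      rw [e]
      refine MeasurableSet.iInter fun u => MeasurableSet.iInter fun v => MeasurableSet.iInter
        fun _ => MeasurableSet.compl ?_
      exact measurableSet_eq_fun (measurable_pi_apply u) (measurable_pi_apply v)
  · intro a
    have hS : ∀ b : Fin n → ℤ, Measurable (fun (x : (Fin n → ℤ) → Fin q) v => x (v + b)) :=
      fun b => measurable_pi_lambda _ fun v => measurable_pi_apply _
    rw [Measure.map_map (hS a) hT]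
    have e : (fun (x : (Fin n → ℤ) → Fin q) v => x (v + a)) ∘ pT σ =
        pT σ ∘ (fun (x : (Fin n → ℤ) → Fin q) v => x (v + a ∘ σ)) := rfl
    rw [e, ← Measure.map_map hT (hS _), hμ.stat]
  · intro A B hAB
    rw [IndepFun_iff]
    intro t1 t2 h1 h2
    have h1' : MeasurableSet t1 := sA_le A _ h1
    have h2' : MeasurableSet t2 := sA_le B _ h2
    rw [Measure.map_apply hT (h1'.inter h2'), Measure.map_apply hT h1', Measure.map_apply hT h2']
    have hi := hμ.indep ((fun v : Fin n → ℤ => v ∘ σ) '' A) ((fun v : Fin n → ℤ => v ∘ σ) '' B) (by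
      rintro u ⟨u', hu, rfl⟩ v ⟨v', hv, rfl⟩
      refine ⟨fun h => (hAB u' hu v' hv).1 ?_, fun h => (hAB u' hu v' hv).2 ((adj_perm σ _ _).1 h)⟩
      funext j
      have h3 := congrFun h (σ.symm j)
      change u' (σ (σ.symm j)) = v' (σ (σ.symm j)) at h3
      rwa [σ.apply_symm_apply] at h3)
    exact (IndepFun_iff _ _ _).1 hi _ _ (pT_sA σ h1) (pT_sA σ h2)

theorem perm_proper (r : Fin q → Fin 4) (i : Fin n) (hμ : IsOneDep n q μ)
    (hr : ∀ᵐ x ∂μ, ∀ u, r (x u) ≠ r (x (u + Pi.single i 1))) :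
    ∀ᵐ x ∂(μ.map (pT σ)), ∀ u, r (x u) ≠ r (x (u + Pi.single (σ i) 1)) := by
  have hT := pT_meas (q := q) σ
  rw [ae_map_iff hT.aemeasurable]
  · filter_upwards [hr] with x hx u
    have h1 := hx (u ∘ σ)
    have e : u ∘ σ + Pi.single i 1 = (u + Pi.single (σ i) 1) ∘ σ := by
      funext j
      change u (σ j) + (Pi.single i 1 : Fin n → ℤ) j = u (σ j) + (Pi.single (σ i) 1 : Fin n → ℤ) (σ j)
      congr 1
      by_cases h : j = i
      · subst h
        rw [Pi.single_eq_same, Pi.single_eq_same]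
      · rw [Pi.single_eq_of_ne h, Pi.single_eq_of_ne fun h' => h (σ.injective h')]
    rw [e] at h1
    exact h1
  · have e : {x : (Fin n → ℤ) → Fin q | ∀ u, r (x u) ≠ r (x (u + Pi.single (σ i) 1))} =
        ⋂ u, {x | r (x u) = r (x (u + Pi.single (σ i) 1))}ᶜ := by
      ext x
      simp only [mem_iInter]
      rfl
    rw [e]
    refine MeasurableSet.iInter fun u => MeasurableSet.compl ?_
    exact measurableSet_eq_fun ((Measurable.of_discrete (f := r)).comp (measurable_pi_apply _))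
      ((Measurable.of_discrete (f := r)).comp (measurable_pi_apply _))

end perm

section fin

variable {d q : ℕ} {μ : Measure ((Fin (d + 1) → ℤ) → Fin q)} (i : Fin (d + 1))

theorem hc_of (C : Set (Fin q)) (h : ∀ᵐ x ∂μ, ∀ u, x u ∈ C → x (u + Pi.single i 1) ∉ C) :
    HC i μ C := by
  filter_upwards [h] with x hx k w
  rw [ci_single]
  exact hx _

/-- a set of colours which is independent on the lines of direction `i` -/
theorem cls (hμ : IsOneDep (d + 1) q μ) (C : Finset (Fin q))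
    (h : ∀ᵐ x ∂μ, ∀ u, x u ∈ C → x (u + Pi.single i 1) ∉ C) :
    μ.real {x | x 0 ∈ C} ≤ 1 / 4 ∧ (μ.real {x | x 0 ∈ C} = 1 / 4 →
      (∃ ν, IsOneDep d C.card ν) ∧
      ∀ (v : Fin (d + 1) → ℤ) (E : Set ((Fin (d + 1) → ℤ) → Fin q)),
        MeasurableSet[sA q (d + 1) {u | u i = v i ∧ u ≠ v}] E →
        μ (E ∩ {x | x v ∈ C}) = μ E * μ {x | x v ∈ C}) := by
  have := hμ.prob
  have hC : HC i μ (C : Set (Fin q)) := hc_of i _ h
  refine ⟨dn_le i hμ _ hC, fun hd => ⟨fibre i hμ C hC hd, fun v E hE => ?_⟩⟩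
  obtain ⟨w, hw⟩ := exists_ci i v
  have h1 := rigid i hμ C hC hd (v i) w E (sA_mono (by
    rintro u ⟨hu1, hu2⟩
    obtain ⟨a, ha⟩ := exists_ci i u
    refine ⟨a, ?_, ?_⟩
    · rintro rfl
      apply hu2
      rw [ha, hu1]
      exact hw.symm
    · rw [← hu1]
      exact ha) _ hE)
  rw [← hw] at h1
  have h2 : μ.real {x | x v ∈ (C : Set (Fin q))} = 1 / 4 := by
    rw [dn_site hμ]
    exact hd
  have h3 : μ.real (E ∩ {x | x v ∈ (C : Set (Fin q))}) =
      μ.real E * μ.real {x | x v ∈ (C : Set (Fin q))} := by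
    rw [h1, h2]
    ring
  have h4 : (μ (E ∩ {x | x v ∈ (C : Set (Fin q))})).toReal =
      (μ E * μ {x | x v ∈ (C : Set (Fin q))}).toReal := by
    rw [ENNReal.toReal_mul]
    exact h3
  exact (ENNReal.toReal_eq_toReal_iff' (measure_ne_top _ _)
    (ENNReal.mul_ne_top (measure_ne_top _ _) (measure_ne_top _ _))).1 h4

/-- a proper 4-valued coordinate in one direction: lower bound -/
theorem one_low (hμ : IsOneDep (d + 1) q μ) (r : Fin q → Fin 4)
    (hr : ∀ᵐ x ∂μ, ∀ u, r (x u) ≠ r (x (u + Pi.single i 1))) (m : ℕ)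
    (hm : ∀ k (ν : Measure ((Fin d → ℤ) → Fin k)), IsOneDep d k ν → m ≤ k) : 4 * m ≤ q := by
  have hr' : ∀ᵐ x ∂μ, ∀ (k : ℤ) (w : Fin d → ℤ), r (x (ci i k w)) ≠ r (x (ci i (k + 1) w)) := by
    filter_upwards [hr] with x hx k w
    rw [ci_single]
    exact hx _
  refine card_sum r m fun c => ?_
  obtain ⟨ν, hν⟩ := (four i hμ r hr' c).2
  exact hm _ ν hν

/-- a proper 4-valued coordinate in one direction: the product -/
theorem one_up (hP : ProdStmt) (hHL : HLStmt) (m : ℕ)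
    (hm : ∃ ν : Measure ((Fin d → ℤ) → Fin m), IsOneDep d m ν) :
    ∃ (μ : Measure ((Fin (d + 1) → ℤ) → Fin (4 * m))) (r : Fin (4 * m) → Fin 4),
      IsOneDep (d + 1) (4 * m) μ ∧ ∀ᵐ x ∂μ, ∀ u, r (x u) ≠ r (x (u + Pi.single i 1)) := by
  obtain ⟨ν, hν⟩ := hm
  obtain ⟨p1, hp1⟩ := hHL
  have hm1 : 1 ≤ m := by
    rw [Nat.one_le_iff_ne_zero]
    rintro rfl
    have := hν.prob
    have h : (univ : Set ((Fin d → ℤ) → Fin 0)) = ∅ := by
      ext x
      exact (x 0).elim0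
    have h2 := measure_univ (μ := ν)
    rw [h, measure_empty] at h2
    exact zero_ne_one h2
  obtain ⟨P, hP1, r, s, h1, -⟩ := hP d m p1 (fo ν) hm1 hp1 (fo_isFam hν)
  obtain ⟨μ, hμ, hμp⟩ := H52X.measX P (by omega) hP1
  have := hμ.prob
  have hr : ∀ᵐ x ∂μ, ∀ u, r (x u) ≠ r (x (u + Pi.single 0 1)) := by
    rw [ae_all_iff]
    intro u
    refine H52X.ae_pair u (u + Pi.single 0 1) (fun a b => r a = r b) fun x hx => ?_
    rw [hμp]
    obtain ⟨k, w, rfl⟩ := exists_cn u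
    rw [← cn_zero_single] at hx ⊢
    exact h1 _ x k w (by simp) (by simp) hx
  refine ⟨μ.map (pT (Equiv.swap 0 i)), r, perm _ hμ, ?_⟩
  have h2 := perm_proper (Equiv.swap 0 i) r 0 hμ hr
  rw [Equiv.swap_apply_left] at h2
  exact h2

end fin

/-- a proper 4-valued coordinate in every direction: the product -/
theorem all_up' (hP : ProdStmt) (hHL : HLStmt) (d : ℕ) :
    ∃ (μ : Measure ((Fin d → ℤ) → Fin (4 ^ d))) (r : Fin d → Fin (4 ^ d) → Fin 4),
      IsOneDep d (4 ^ d) μ ∧ ∀ i, ∀ᵐ x ∂μ, ∀ u, r i (x u) ≠ r i (x (u + Pi.single i 1)) := by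
  obtain ⟨q, p, r, rfl, hp, hr⟩ := all_up hP hHL d
  obtain ⟨μ, hμ, hμp⟩ := H52X.measX p (Nat.one_le_pow _ _ (by norm_num)) hp
  have := hμ.prob
  refine ⟨μ, r, hμ, fun i => ?_⟩
  rw [ae_all_iff]
  intro u
  refine H52X.ae_pair u (u + Pi.single i 1) (fun a b => r i a = r i b) fun x hx => ?_
  rw [hμp]
  exact hr i _ x u (by simp) (by simp) hx

end Pool.Agent.OD.H52.I
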