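import Pool.Agent.Helper52_OD.Rig

/-!
# MP_ee7213_pr: rigidity of the 4-coloured line, any direction `i`

`X` a stationary 1-dependent field on the lattice of dimension `d + 1`; `C` a set of colours such that
no two sites adjacent in the first direction have colours in `C`.
-/

set_option autoImplicit false

open MeasureTheory ProbabilityTheory Set

noncomputable section

namespace Pool.Agent.OD.H52.I

open Pool.Agent.OD Pool.Agent.OD.H52

variable {d q : ℕ}

/-- the site with `i`-th coordinate `k` and the other coordinates `w` -/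
def ci (i : Fin (d + 1)) (k : ℤ) (w : Fin d → ℤ) : Fin (d + 1) → ℤ := i.insertNth k w

theorem ci_same (i : Fin (d + 1)) (k : ℤ) (w : Fin d → ℤ) : ci i k w i = k := by
  unfold ci
  rw [Fin.insertNth_apply_same]

theorem ci_succ (i : Fin (d + 1)) (k : ℤ) (w : Fin d → ℤ) (j : Fin d) :
    ci i k w (i.succAbove j) = w j := by
  unfold ci
  rw [Fin.insertNth_apply_succAbove]

theorem ci_add (i : Fin (d + 1)) (k l : ℤ) (w a : Fin d → ℤ) :
    ci i k w + ci i l a = ci i (k + l) (w + a) := by
  funext j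
  refine Fin.succAboveCases i ?_ (fun j => ?_) j
  · rw [Pi.add_apply, ci_same, ci_same, ci_same]
  · rw [Pi.add_apply, ci_succ, ci_succ, ci_succ, Pi.add_apply]

theorem adj_ci (i : Fin (d + 1)) (k l : ℤ) (w a : Fin d → ℤ) :
    LAdj (ci i k w) (ci i l a) ↔ |k - l| + ∑ j, |w j - a j| = 1 := by
  unfold LAdj
  rw [Fin.sum_univ_succAbove _ i, ci_same, ci_same]
  have : ∀ j, |ci i k w (i.succAbove j) - ci i l a (i.succAbove j)| = |w j - a j| := by
    intro j
    rw [ci_succ, ci_succ]
  rw [Finset.sum_congr rfl fun j _ => this j]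

theorem ci_inj {i : Fin (d + 1)} {k l : ℤ} {w a : Fin d → ℤ} :
    ci i k w = ci i l a ↔ k = l ∧ w = a := by
  constructor
  · intro h
    refine ⟨?_, ?_⟩
    · have h1 := congrFun h i
      rw [ci_same, ci_same] at h1
      exact h1
    · funext j
      have h1 := congrFun h (i.succAbove j)
      rw [ci_succ, ci_succ] at h1
      exact h1
  · rintro ⟨rfl, rfl⟩
    rfl

theorem exists_ci (i : Fin (d + 1)) (u : Fin (d + 1) → ℤ) :
    ∃ w, u = ci i (u i) w := by
  refine ⟨fun j => u (i.succAbove j), ?_⟩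
  funext j
  refine Fin.succAboveCases i ?_ (fun j => ?_) j
  · rw [ci_same]
  · rw [ci_succ]

theorem ci_single (i : Fin (d + 1)) (k : ℤ) (w : Fin d → ℤ) :
    ci i (k + 1) w = ci i k w + Pi.single i 1 := by
  funext j
  refine Fin.succAboveCases i ?_ (fun j => ?_) j
  · rw [Pi.add_apply, ci_same, ci_same, Pi.single_eq_same]
  · rw [Pi.add_apply, ci_succ, ci_succ, Pi.single_eq_of_ne (Fin.succAbove_ne i j), add_zero]

variable (i : Fin (d + 1))

/-- no colour of `C` at the sites `v + k e_1`, `a < k ≤ a + n` -/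
def No (i : Fin (d + 1)) (C : Set (Fin q)) (v : ℤ × (Fin d → ℤ)) (a : ℤ) (n : ℕ) :
    Set ((Fin (d + 1) → ℤ) → Fin q) :=
  {x | ∀ k : ℤ, a < k → k ≤ a + n → x (ci i (v.1 + k) v.2) ∉ C}

/-- the sites of the segment -/
def Sg (i : Fin (d + 1)) (v : ℤ × (Fin d → ℤ)) (a : ℤ) (n : ℕ) : Set (Fin (d + 1) → ℤ) :=
  {u | ∃ k : ℤ, a < k ∧ k ≤ a + n ∧ u = ci i (v.1 + k) v.2}

theorem No_meas (C : Set (Fin q)) (v : ℤ × (Fin d → ℤ)) (a : ℤ) (n : ℕ) :
    MeasurableSet[sA q (d + 1) (Sg i v a n)] (No i C v a n) := by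
  have e : No i C v a n = ⋂ k : ℤ, ⋂ (_ : a < k), ⋂ (_ : k ≤ a + n),
      {x | x (ci i (v.1 + k) v.2) ∈ C}ᶜ := by
    ext x
    simp only [No, mem_iInter, mem_compl_iff]
    rfl
  rw [e]
  refine MeasurableSet.iInter fun k => MeasurableSet.iInter fun h1 => MeasurableSet.iInter
    fun h2 => ?_
  exact MeasurableSet.compl (sA_coord (A := Sg i v a n) ⟨k, h1, h2, rfl⟩ C)

theorem No_full (C : Set (Fin q)) (v : ℤ × (Fin d → ℤ)) (a : ℤ) (n : ℕ) :
    MeasurableSet (No i C v a n) := sA_le _ _ (No_meas i C v a n)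

/-- the probability of a run of length `n` without `C` -/
def zz (i : Fin (d + 1)) (μ : Measure ((Fin (d + 1) → ℤ) → Fin q)) (C : Set (Fin q)) (n : ℕ) : ℝ :=
  μ.real (No i C (0, 0) 0 n)

variable {μ : Measure ((Fin (d + 1) → ℤ) → Fin q)}

theorem No_site (hμ : IsOneDep (d + 1) q μ) (C : Set (Fin q)) (v : ℤ × (Fin d → ℤ)) (a : ℤ)
    (n : ℕ) : μ.real (No i C v a n) = zz i μ C n := by
  have h := stat_real hμ (ci i (v.1 + a) v.2) (No_full i C (0, 0) 0 n)
  rw [zz, ← h]
  congr 1
  ext x
  constructor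
  · intro hx k hk1 hk2
    have h1 := hx (k + a) (by omega) (by omega)
    change x (ci i (0 + k) 0 + ci i (v.1 + a) v.2) ∉ C
    rw [ci_add]
    have e1 : 0 + k + (v.1 + a) = v.1 + (k + a) := by ring
    rw [e1, zero_add]
    exact h1
  · intro hx k hk1 hk2
    have h1 := hx (k - a) (by omega) (by omega)
    change x (ci i (0 + (k - a)) 0 + ci i (v.1 + a) v.2) ∉ C at h1
    rw [ci_add] at h1
    have e1 : 0 + (k - a) + (v.1 + a) = v.1 + k := by ring
    rw [e1, zero_add] at h1
    exact h1

theorem zz_zero (hμ : IsOneDep (d + 1) q μ) (C : Set (Fin q)) : zz i μ C 0 = 1 := by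
  have := hμ.prob
  have e : No i C ((0 : ℤ), (0 : Fin d → ℤ)) 0 0 = univ := by
    ext x
    refine ⟨fun _ => trivial, fun _ k h1 h2 => ?_⟩
    have h3 : k ≤ 0 := by simpa using h2
    omega
  rw [zz, e]
  simp

theorem zz_one (hμ : IsOneDep (d + 1) q μ) (C : Set (Fin q)) : zz i μ C 1 = 1 - dn μ C := by
  have := hμ.prob
  have e : No i C ((0 : ℤ), (0 : Fin d → ℤ)) 0 1 = {x | x (ci i 1 0) ∈ C}ᶜ := by
    ext x
    constructor
    · intro hx
      exact hx 1 (by norm_num) (by norm_num)
    · intro hx k h1 h2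
      have h3 : k = 1 := by
        have : k ≤ 0 + 1 := by simpa using h2
        omega
      subst h3
      exact hx
  rw [zz, e, probReal_compl_eq_one_sub (coord_full _ C), dn_site hμ]

/-- no two sites adjacent in the first direction have colours in `C` -/
def HC (i : Fin (d + 1)) (μ : Measure ((Fin (d + 1) → ℤ) → Fin q)) (C : Set (Fin q)) : Prop :=
  ∀ᵐ x ∂μ, ∀ (k : ℤ) (w : Fin d → ℤ), x (ci i k w) ∈ C → x (ci i (k + 1) w) ∉ C

theorem zz_rec (hμ : IsOneDep (d + 1) q μ) (C : Set (Fin q)) (hC : HC i μ C) (n : ℕ) :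
    zz i μ C (n + 2) = zz i μ C (n + 1) - dn μ C * zz i μ C n := by
  have := hμ.prob
  set P : Set ((Fin (d + 1) → ℤ) → Fin q) := {x | x (ci i (n + 2) 0) ∈ C} with hP
  have h1 : μ.real (No i C (0, 0) 0 (n + 1) ∩ P) + μ.real (No i C (0, 0) 0 (n + 1) \ P) =
      zz i μ C (n + 1) := measureReal_inter_add_sdiff (coord_full _ C)
  have h2 : No i C ((0 : ℤ), (0 : Fin d → ℤ)) 0 (n + 1) \ P = No i C (0, 0) 0 (n + 2) := by
    ext x
    constructor
    · rintro ⟨hx, hp⟩ k hk1 hk2
      by_cases h : k ≤ 0 + (n + 1 : ℕ)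
      · exact hx k hk1 h
      · have e : k = n + 2 := by push_cast at h hk2; omega
        subst e
        change x (ci i (0 + ((n : ℤ) + 2)) 0) ∉ C
        rw [zero_add]
        exact hp
    · intro hx
      refine ⟨fun k hk1 hk2 => hx k hk1 (by push_cast at hk2 ⊢; omega), ?_⟩
      have h := hx (n + 2) (by omega) (by push_cast; omega)
      change x (ci i (0 + ((n : ℤ) + 2)) 0) ∉ C at h
      rw [zero_add] at h
      exact h
  have h3 : μ.real (No i C (0, 0) 0 (n + 1) ∩ P) = μ.real (P ∩ No i C (0, 0) 0 n) := by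
    apply measureReal_congr
    filter_upwards [hC] with x hx
    apply propext
    constructor
    · rintro ⟨h4, h5⟩
      exact ⟨h5, fun k hk1 hk2 => h4 k hk1 (by push_cast at hk2 ⊢; omega)⟩
    · rintro ⟨h5, h4⟩
      refine ⟨fun k hk1 hk2 => ?_, h5⟩
      by_cases h : k ≤ 0 + (n : ℕ)
      · exact h4 k hk1 h
      · have e : k = n + 1 := by push_cast at h hk2; omega
        subst e
        intro h6
        change x (ci i (0 + ((n : ℤ) + 1)) 0) ∈ C at h6
        have h7 := hx _ _ h6
        have e2 : 0 + ((n : ℤ) + 1) + 1 = n + 2 := by ring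
        rw [e2] at h7
        exact h7 h5
  have h4 : μ.real (P ∩ No i C (0, 0) 0 n) = μ.real P * μ.real (No i C (0, 0) 0 n) := by
    refine ind_ev hμ (A := {ci i (n + 2) 0}) (B := Sg i (0, 0) 0 n) ?_
      (sA_coord (Set.mem_singleton _) C) (No_meas i C _ _ _)
    rintro u hu v ⟨k, hk1, hk2, rfl⟩
    rw [Set.mem_singleton_iff] at hu
    subst hu
    change _ ≠ ci i (0 + k) 0 ∧ ¬ LAdj _ (ci i (0 + k) 0)
    rw [adj_ci, Ne, ci_inj, zero_add]
    have hk3 : k ≤ n := by simpa using hk2
    constructor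
    · rintro ⟨h, _⟩
      omega
    · intro h
      have h8 := norm_nonneg' (0 : Fin d → ℤ) 0
      have h9 : |(n : ℤ) + 2 - k| ≤ 1 := by linarith
      rw [abs_le] at h9
      omega
  rw [h3, h4, h2, hP, dn_site hμ] at h1
  have h5 : zz i μ C (n + 2) = μ.real (No i C ((0 : ℤ), (0 : Fin d → ℤ)) 0 (n + 2)) := rfl
  have h6 : zz i μ C n = μ.real (No i C ((0 : ℤ), (0 : Fin d → ℤ)) 0 n) := rfl
  rw [h5, h6]
  linarith

theorem zz_nonneg (C : Set (Fin q)) (n : ℕ) : 0 ≤ zz i μ C n := measureReal_nonneg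

/-- the density of an independent set of colours on a line is at most `1/4` -/
theorem dn_le (hμ : IsOneDep (d + 1) q μ) (C : Set (Fin q)) (hC : HC i μ C) : dn μ C ≤ 1 / 4 := by
  by_contra hlt
  rw [not_le] at hlt
  set ρ := dn μ C with hρ
  set y : ℕ → ℝ := fun n => 2 ^ n * zz i μ C n with hy
  have hy0 : ∀ n, 0 ≤ y n := fun n => mul_nonneg (by positivity) (zz_nonneg i C n)
  set D : ℕ → ℝ := fun n => y (n + 1) - y n with hD
  have hrec : ∀ n, D (n + 1) = D n - (4 * ρ - 1) * y n := by
    intro n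
    have h1 := zz_rec i hμ C hC n
    simp only [hD, hy]
    rw [show n + 1 + 1 = n + 2 from rfl, h1]
    ring
  have hmono : ∀ m k, D (m + k) ≤ D m := by
    intro m k
    induction k with
    | zero => exact le_rfl
    | succ k ih =>
      rw [← add_assoc, hrec]
      have h2 : 0 ≤ (4 * ρ - 1) * y (m + k) := mul_nonneg (by linarith) (hy0 _)
      linarith
  have hDn : ∀ m, 0 ≤ D m := by
    intro m
    by_contra hm
    rw [not_le] at hm
    have h3 : ∀ k : ℕ, y (m + k) ≤ y m + k * D m := by
      intro k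
      induction k with
      | zero => simp
      | succ k ih =>
        have h4 := hmono m k
        have h5 : y (m + (k + 1)) = y (m + k) + D (m + k) := by
          simp only [hD]
          rw [← add_assoc]
          ring
        rw [h5]
        push_cast
        linarith
    obtain ⟨k, hk⟩ := exists_nat_gt (y m / (-D m))
    have h6 := h3 k
    have h7 := hy0 (m + k)
    rw [div_lt_iff₀ (by linarith)] at hk
    linarith
  have hy1 : ∀ n, 1 ≤ y n := by
    intro n
    induction n with
    | zero => simp only [hy]; rw [zz_zero i hμ]; norm_num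
    | succ n ih =>
      have := hDn n
      simp only [hD] at this
      linarith
  have h8 : ∀ n : ℕ, D n ≤ D 0 - n * (4 * ρ - 1) := by
    intro n
    induction n with
    | zero => simp
    | succ n ih =>
      rw [hrec]
      have h9 := mul_le_mul_of_nonneg_left (hy1 n) (show 0 ≤ 4 * ρ - 1 by linarith)
      push_cast
      linarith
  obtain ⟨n, hn⟩ := exists_nat_gt (D 0 / (4 * ρ - 1))
  rw [div_lt_iff₀ (by linarith)] at hn
  have h10 := h8 n
  have h11 := hDn n
  linarith

theorem zz_eq (hμ : IsOneDep (d + 1) q μ) (C : Set (Fin q)) (hC : HC i μ C) (hd : dn μ C = 1 / 4)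
    (n : ℕ) : zz i μ C n = (n + 2) / 2 ^ (n + 1) := by
  have h : zz i μ C n = (n + 2) / 2 ^ (n + 1) ∧
      zz i μ C (n + 1) = ((n + 1 : ℕ) + 2) / 2 ^ (n + 1 + 1) := by
    induction n with
    | zero =>
      rw [zz_zero i hμ, zz_one i hμ, hd]
      norm_num
    | succ n ih =>
      refine ⟨ih.2, ?_⟩
      rw [zz_rec i hμ C hC n, ih.1, ih.2, hd]
      push_cast
      field_simp
      ring
  exact h.1

/-- RIGIDITY: a critical class is independent of the rest of the hyperplane -/
theorem rigid (hμ : IsOneDep (d + 1) q μ) (C : Set (Fin q)) (hC : HC i μ C) (hd : dn μ C = 1 / 4)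
    (b : ℤ) (w : Fin d → ℤ) (E : Set ((Fin (d + 1) → ℤ) → Fin q))
    (hE : MeasurableSet[sA q (d + 1) {u | ∃ a, a ≠ w ∧ u = ci i b a}] E) :
    μ.real (E ∩ {x | x (ci i b w) ∈ C}) = 1 / 4 * μ.real E := by
  have := hμ.prob
  set F : Set (Fin (d + 1) → ℤ) := {u | ∃ a, a ≠ w ∧ u = ci i b a} with hF
  have key : ∀ E' : Set ((Fin (d + 1) → ℤ) → Fin q), MeasurableSet[sA q (d + 1) F] E' →
      μ.real (E' ∩ {x | x (ci i b w) ∈ C}) ≤ 1 / 4 * μ.real E' := by
    intro E' hE'
    set P : Set ((Fin (d + 1) → ℤ) → Fin q) := {x | x (ci i b w) ∈ C} with hP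
    have h1 : ∀ m : ℕ, μ.real (E' ∩ P) * zz i μ C m ^ 2 ≤ μ.real E' * zz i μ C (m + 1) ^ 2 := by
      intro m
      set Np : Set ((Fin (d + 1) → ℤ) → Fin q) := No i C (b, w) 0 (m + 1) with hNp
      set Nm : Set ((Fin (d + 1) → ℤ) → Fin q) := No i C (b, w) (-(m + 2 : ℕ)) (m + 1) with hNm
      have e1 : μ.real (E' ∩ (Np ∩ Nm)) = μ.real E' * zz i μ C (m + 1) ^ 2 := by
        rw [ind_ev hμ (A := F) (B := Sg i (b, w) 0 (m + 1) ∪ Sg i (b, w) (-(m + 2 : ℕ)) (m + 1)) ?_
          hE' ?_, ind_ev hμ (A := Sg i (b, w) 0 (m + 1)) (B := Sg i (b, w) (-(m + 2 : ℕ)) (m + 1)) ?_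
          (No_meas i _ _ _ _) (No_meas i _ _ _ _), No_site i hμ, No_site i hμ]
        · ring
        · rintro u ⟨k, hk1, hk2, rfl⟩ v ⟨l, hl1, hl2, rfl⟩
          push_cast at hk2 hl1 hl2
          rw [adj_ci, Ne, ci_inj]
          constructor
          · rintro ⟨h, _⟩
            simp only at h
            omega
          · intro h
            have h8 := norm_nonneg' w w
            simp only at h
            have h9 : |b + k - (b + l)| ≤ 1 := by linarith
            rw [abs_le] at h9
            omega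
        · rintro u ⟨a, ha, rfl⟩ v hv
          have hv' : ∃ k : ℤ, k ≠ b ∧ v = ci i k w := by
            rcases hv with ⟨k, hk1, hk2, rfl⟩ | ⟨k, hk1, hk2, rfl⟩
            · exact ⟨b + k, by omega, rfl⟩
            · refine ⟨b + k, ?_, rfl⟩
              push_cast at hk1 hk2
              omega
          obtain ⟨k, hk, rfl⟩ := hv'
          rw [adj_ci, Ne, ci_inj]
          constructor
          · rintro ⟨h, _⟩
            exact hk h.symm
          · intro h
            have h8 := norm_nonneg' a w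
            have h9 : 1 ≤ |b - k| := Int.one_le_abs (sub_ne_zero.2 hk.symm)
            have h10 : ∑ i, |a i - w i| = 0 := by omega
            exact ha (norm_eq_zero h10)
        · refine MeasurableSet.inter ?_ ?_
          · exact sA_mono (Set.subset_union_left) _ (No_meas i _ _ _ _)
          · exact sA_mono (Set.subset_union_right) _ (No_meas i _ _ _ _)
      set Mp : Set ((Fin (d + 1) → ℤ) → Fin q) := No i C (b, w) 1 m with hMp
      set Mm : Set ((Fin (d + 1) → ℤ) → Fin q) := No i C (b, w) (-(m + 2 : ℕ)) m with hMm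
      have e2 : μ.real (E' ∩ P ∩ (Mp ∩ Mm)) = μ.real (E' ∩ P) * zz i μ C m ^ 2 := by
        rw [ind_ev hμ (A := F ∪ {ci i b w})
          (B := Sg i (b, w) 1 m ∪ Sg i (b, w) (-(m + 2 : ℕ)) m) ?_ ?_ ?_,
          ind_ev hμ (A := Sg i (b, w) 1 m) (B := Sg i (b, w) (-(m + 2 : ℕ)) m) ?_
          (No_meas i _ _ _ _) (No_meas i _ _ _ _), No_site i hμ, No_site i hμ]
        · ring
        · rintro u ⟨k, hk1, hk2, rfl⟩ v ⟨l, hl1, hl2, rfl⟩
          push_cast at hk2 hl1 hl2
          rw [adj_ci, Ne, ci_inj]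
          constructor
          · rintro ⟨h, _⟩
            simp only at h
            omega
          · intro h
            have h8 := norm_nonneg' w w
            simp only at h
            have h9 : |b + k - (b + l)| ≤ 1 := by linarith
            rw [abs_le] at h9
            omega
        · rintro u hu v hv
          have hv' : ∃ k : ℤ, 2 ≤ |b - k| ∧ v = ci i k w := by
            rcases hv with ⟨k, hk1, hk2, rfl⟩ | ⟨k, hk1, hk2, rfl⟩
            · refine ⟨b + k, ?_, rfl⟩
              rw [le_abs]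
              right; omega
            · refine ⟨b + k, ?_, rfl⟩
              push_cast at hk1 hk2
              rw [le_abs]
              left; omega
          obtain ⟨k, hk, rfl⟩ := hv'
          have hu' : ∃ a, u = ci i b a := by
            rcases hu with ⟨a, _, rfl⟩ | hu
            · exact ⟨a, rfl⟩
            · exact ⟨w, hu⟩
          obtain ⟨a, rfl⟩ := hu'
          rw [adj_ci, Ne, ci_inj]
          constructor
          · rintro ⟨h, _⟩
            rw [← h, sub_self, abs_zero] at hk
            norm_num at hk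
          · intro h
            have h8 := norm_nonneg' a w
            omega
        · refine MeasurableSet.inter ?_ ?_
          · exact sA_mono (Set.subset_union_left) _ hE'
          · exact sA_coord (Set.mem_union_right _ (Set.mem_singleton _)) C
        · refine MeasurableSet.inter ?_ ?_
          · exact sA_mono (Set.subset_union_left) _ (No_meas i _ _ _ _)
          · exact sA_mono (Set.subset_union_right) _ (No_meas i _ _ _ _)
      rw [← e1, ← e2]
      have e3 : μ.real (E' ∩ P ∩ (Mp ∩ Mm)) = μ.real (E' ∩ P ∩ (Np ∩ Nm)) := by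
        apply measureReal_congr
        filter_upwards [hC] with x hx
        apply propext
        constructor
        · rintro ⟨⟨h4, h5⟩, h6, h7⟩
          refine ⟨⟨h4, h5⟩, fun k hk1 hk2 => ?_, fun k hk1 hk2 => ?_⟩
          · by_cases h : k = 1
            · subst h
              exact hx b w h5
            · exact h6 k (by omega) (by push_cast at hk2 ⊢; omega)
          · by_cases h : k = -1
            · subst h
              intro h9
              have h10 := hx _ w h9
              have e5 : b + -1 + 1 = b := by ring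
              simp only at h10
              rw [e5] at h10
              exact h10 h5
            · exact h7 k hk1 (by push_cast at hk2 ⊢; omega)
        · rintro ⟨⟨h4, h5⟩, h6, h7⟩
          exact ⟨⟨h4, h5⟩, fun k hk1 hk2 => h6 k (by omega) (by push_cast at hk2 ⊢; omega),
            fun k hk1 hk2 => h7 k hk1 (by push_cast at hk2 ⊢; omega)⟩
      rw [e3]
      exact measureReal_mono (Set.inter_subset_inter_left _ Set.inter_subset_left)
    have h2 : ∀ m : ℕ, μ.real (E' ∩ P) ≤ μ.real E' * ((m + 3) / (2 * (m + 2))) ^ 2 := by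
      intro m
      have h3 := h1 m
      rw [zz_eq i hμ C hC hd, zz_eq i hμ C hC hd] at h3
      have h4 : (0 : ℝ) < ((m : ℝ) + 2) / 2 ^ (m + 1) := by positivity
      have h5 : μ.real E' * ((m + 3) / (2 * (m + 2))) ^ 2 * (((m : ℝ) + 2) / 2 ^ (m + 1)) ^ 2 =
          μ.real E' * (((m + 1 : ℕ) + 2) / 2 ^ (m + 1 + 1)) ^ 2 := by
        push_cast
        field_simp
        ring
      rw [← h5] at h3
      exact le_of_mul_le_mul_right h3 (by positivity)
    have h3 : Filter.Tendsto (fun m : ℕ => μ.real E' * (((m : ℝ) + 3) / (2 * (m + 2))) ^ 2)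
        Filter.atTop (nhds (μ.real E' * (1 / 2) ^ 2)) := by
      refine Filter.Tendsto.const_mul _ (Filter.Tendsto.pow ?_ 2)
      have h4 : (fun m : ℕ => ((m : ℝ) + 3) / (2 * (m + 2))) =
          fun m : ℕ => 1 / 2 + 1 / 2 * (1 / ((m + 1 : ℕ) + 1 : ℝ)) := by
        funext m
        push_cast
        field_simp
        ring
      rw [h4]
      have h5 : Filter.Tendsto (fun m : ℕ => (1 / (((m + 1 : ℕ) : ℝ) + 1) : ℝ)) Filter.atTop
          (nhds 0) :=
        (tendsto_one_div_add_atTop_nhds_zero_nat (𝕜 := ℝ)).comp (Filter.tendsto_add_atTop_nat 1)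
      have h6 := (h5.const_mul (1 / 2)).const_add (1 / 2)
      simpa using h6
    have h4 := ge_of_tendsto' h3 h2
    calc μ.real (E' ∩ P) ≤ μ.real E' * (1 / 2) ^ 2 := h4
      _ = 1 / 4 * μ.real E' := by ring
  have h1 := key E hE
  have h2 := key Eᶜ hE.compl
  have hP : MeasurableSet {x : (Fin (d + 1) → ℤ) → Fin q | x (ci i b w) ∈ C} := coord_full _ C
  have hEm : MeasurableSet E := sA_le _ _ hE
  have h3 : μ.real (E ∩ {x | x (ci i b w) ∈ C}) + μ.real (Eᶜ ∩ {x | x (ci i b w) ∈ C}) = 1 / 4 := by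
    rw [← hd, ← dn_site hμ C (ci i b w), Set.inter_comm E, Set.inter_comm Eᶜ, ← Set.sdiff_eq]
    exact measureReal_inter_add_sdiff hEm
  have h4 : μ.real Eᶜ = 1 - μ.real E := probReal_compl_eq_one_sub hEm
  rw [h4] at h2
  linarith

end Pool.Agent.OD.H52.I
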