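import Pool.Agent.Helper52_OD.Fib
import Pool.Agent.Helper52_OD.MeasX

/-!
# MP_ee7213_pr, RowRigidity: statements of the modules (C) and (D)
-/

set_option autoImplicit false

open MeasureTheory ProbabilityTheory Set

noncomputable section

namespace Pool.Agent.OD.H52

open Pool.Agent.OD

/-- (C) the product of a 4-colouring of the lines and of a colouring of the hyperplanes. -/
def ProdStmt : Prop :=
  ∀ (d m : ℕ) (p1 : Finset (Fin 1 → ℤ) → ((Fin 1 → ℤ) → Fin 4) → ℝ)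
    (p2 : Finset (Fin d → ℤ) → ((Fin d → ℤ) → Fin m) → ℝ), 1 ≤ m → IsFam 1 4 p1 → IsFam d m p2 →
    ∃ P : Finset (Fin (d + 1) → ℤ) → ((Fin (d + 1) → ℤ) → Fin (4 * m)) → ℝ,
      IsFam (d + 1) (4 * m) P ∧ ∃ (r : Fin (4 * m) → Fin 4) (s : Fin (4 * m) → Fin m),
        (∀ (L : Finset (Fin (d + 1) → ℤ)) (x : (Fin (d + 1) → ℤ) → Fin (4 * m)) (k : ℤ)
          (w : Fin d → ℤ), cn k w ∈ L → cn (k + 1) w ∈ L →
          r (x (cn k w)) = r (x (cn (k + 1) w)) → P L x = 0) ∧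
        ∀ (L : Finset (Fin (d + 1) → ℤ)) (x : (Fin (d + 1) → ℤ) → Fin (4 * m)) (k : ℤ)
          (u v : Fin d → ℤ), cn k u ∈ L → cn k v ∈ L →
          p2 {u, v} (fun a => s (x (cn k a))) = 0 → P L x = 0

/-- (D) the Holroyd-Liggett 4-colouring of the line. -/
def HLStmt : Prop :=
  ∃ p1 : Finset (Fin 1 → ℤ) → ((Fin 1 → ℤ) → Fin 4) → ℝ, IsFam 1 4 p1

end Pool.Agent.OD.H52
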